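import Pool.Agent.H268R2.HL.Half
import Pool.Agent.H268R2.HL.Defs

/-! Halving lines of point sets covered by `m` sets in convex position. -/

set_option autoImplicit false

namespace Pool.Agent.Results.MP_e17eac_co.ConvexCurves

open Pool.Agent.H268R2.HL

/-- If `P` is a set of `n` points in general position, `n` even, and `P` is the union of `m` sets
`Q 0, ..., Q (m - 1)` in convex position, then twice the number of halving lines of `P` is at most
the sum over `i` of `|Q i| + 2 |P \ conv (Q i)|`, hence at most `(2 m - 1) n`. -/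
theorem result (P : Finset (ℝ × ℝ)) (hP : GeneralPosition P) (heven : Even P.card)
    (m : ℕ) (Q : Fin m → Finset (ℝ × ℝ)) (hQ : ∀ i, ConvexPosition (Q i))
    (hcov : ∀ p, p ∈ P ↔ ∃ i, p ∈ Q i) :
    2 * {L | IsBisector P L}.ncard ≤ ∑ i, ((Q i).card +
      2 * {p : ℝ × ℝ | p ∈ P ∧ p ∉ convexHull ℝ (Q i : Set (ℝ × ℝ))}.ncard) ∧
    ∑ i, ((Q i).card +
      2 * {p : ℝ × ℝ | p ∈ P ∧ p ∉ convexHull ℝ (Q i : Set (ℝ × ℝ))}.ncard) ≤
      (2 * m - 1) * P.card :=
  halving_main P hP heven m Q hQ hcov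

end Pool.Agent.Results.MP_e17eac_co.ConvexCurves
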