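import Pool.Agent.H189R2.Sub.Blow

/-! Halving lines of random subsets of an arbitrary point set. -/

set_option autoImplicit false

namespace Pool.Agent.Results.MP_e17eac_co.RandomSubsets

open Finset Pool.Agent.H189R2.Sub

/-- twice the signed area of the triangle `pqr` -/
def area (p q r : ℝ × ℝ) : ℝ := (q.1 - p.1) * (r.2 - p.2) - (q.2 - p.2) * (r.1 - p.1)

/-- distinct points, no three of them collinear -/
def GenPos {n : ℕ} (P : Fin n → ℝ × ℝ) : Prop :=
  Function.Injective P ∧ ∀ i j l, i ≠ j → i ≠ l → j ≠ l → area (P i) (P j) (P l) ≠ 0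

open Classical in
/-- number of halving lines of the subset `A` of the points: pairs `i < j` in `A` such that
the line through `P i` and `P j` has equally many points of `A` on its two sides -/
noncomputable def halving {n : ℕ} (P : Fin n → ℝ × ℝ) (A : Finset (Fin n)) : ℕ :=
  ((A ×ˢ A).filter (fun q => q.1 < q.2 ∧
    (A.filter (fun l => 0 < area (P q.1) (P q.2) (P l))).card =
    (A.filter (fun l => area (P q.1) (P q.2) (P l) < 0)).card)).card

theorem halving_eq {n : ℕ} (P : Fin n → ℝ × ℝ) (A : Finset (Fin n)) : halving P A = hc P A := rfl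

/-- **average number of halving lines over all subsets, and the worst case.** -/
theorem result : ∃ C c : ℝ, 0 < C ∧ 0 < c ∧
    (∀ (n : ℕ) (P : Fin n → ℝ × ℝ), GenPos P →
      (∑ A : Finset (Fin n), (halving P A : ℝ)) / 2 ^ n ≤ C * (n : ℝ) ^ (7 / 6 : ℝ)) ∧
    (∀ (m : ℕ) (B : Fin m → ℝ × ℝ), GenPos B → ∃ P : Fin (m * m) → ℝ × ℝ, GenPos P ∧
      c * m * halving B univ ≤ (∑ A : Finset (Fin (m * m)), (halving P A : ℝ)) / 2 ^ (m * m)) ∧
    (∀ K α : ℝ, (∀ (n : ℕ) (P : Fin n → ℝ × ℝ), GenPos P →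
      (∑ A : Finset (Fin n), (halving P A : ℝ)) / 2 ^ n ≤ K * (n : ℝ) ^ α) →
      ∀ (m : ℕ) (B : Fin m → ℝ × ℝ), GenPos B →
        (halving B univ : ℝ) ≤ K / c * (m : ℝ) ^ (2 * α - 1)) := by
  have hblow : ∀ (m : ℕ) (B : Fin m → ℝ × ℝ), GenPos B → ∃ P : Fin (m * m) → ℝ × ℝ, GenPos P ∧
      Real.exp (-4) / 8 * m * halving B univ ≤
        (∑ A : Finset (Fin (m * m)), (halving P A : ℝ)) / 2 ^ (m * m) := by
    intro m B hB
    obtain ⟨P, hP, h⟩ := blow (B := B) hB.2
    refine ⟨P, ⟨fun i j hij => hP.1 _ _ (by rw [hij]), GP.nc hP⟩, ?_⟩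
    rw [le_div_iff₀ (by positivity)]
    exact h
  refine ⟨450, Real.exp (-4) / 8, by norm_num, by positivity, ?_, hblow, ?_⟩
  · intro n P hP
    obtain ⟨P', hP', h⟩ := exists_pert P
    have e : (∑ A : Finset (Fin n), (halving P A : ℝ)) = ∑ A : Finset (Fin n), (hc P' A : ℝ) := by
      apply sum_congr rfl
      intro A _
      rw [halving_eq, hc_congr hP.2 h A]
    rw [e, div_le_iff₀ (by positivity)]
    exact total_le hP'
  · intro K α hK m B hB
    rcases Nat.eq_zero_or_pos m with h0 | h0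
    · subst h0
      have : halving B univ = 0 := by
        unfold halving
        rw [card_eq_zero, eq_empty_iff_forall_notMem]
        intro q _
        exact q.1.elim0
      rw [this]
      have h1 := hK 1 (fun _ => (0, 0)) ⟨fun i j _ => Subsingleton.elim i j,
        fun i j l hij _ _ => absurd (Subsingleton.elim i j) hij⟩
      rw [Nat.cast_one, Real.one_rpow, mul_one] at h1
      have h2 : 0 ≤ K := le_trans (by positivity) h1
      push_cast
      positivity
    · obtain ⟨P, hP, h⟩ := hblow m B hB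
      have h1 := h.trans (hK _ P hP)
      have hm0 : (0 : ℝ) < m := by exact_mod_cast h0
      have e1 : ((m * m : ℕ) : ℝ) ^ α = m * (m : ℝ) ^ (2 * α - 1) := by
        rw [Nat.cast_mul, Real.mul_rpow hm0.le hm0.le, ← Real.rpow_add hm0]
        have : (m : ℝ) * (m : ℝ) ^ (2 * α - 1) = (m : ℝ) ^ (1 : ℝ) * (m : ℝ) ^ (2 * α - 1) := by
          rw [Real.rpow_one]
        rw [this, ← Real.rpow_add hm0]
        congr 1; ring
      rw [e1] at h1
      have hc0 : 0 < Real.exp (-4) / 8 := by positivity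
      rw [div_mul_eq_mul_div, le_div_iff₀ hc0]
      have h2 : m * (Real.exp (-4) / 8 * (halving B univ : ℝ)) ≤
          m * (K * (m : ℝ) ^ (2 * α - 1)) := by linarith
      have := le_of_mul_le_mul_left h2 hm0
      linarith

end Pool.Agent.Results.MP_e17eac_co.RandomSubsets
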