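import Pool.Agent.H189R2.Lev.Points

set_option autoImplicit false

namespace Pool.Agent.Results.MP_e17eac_co.SmoothedHalving

open Finset MeasureTheory Filter Pool.Agent.H189R2.Lev
open scoped ENNReal Topology

theorem measurable_orient {n : ℕ} (i j l : Fin n) :
    Measurable (fun P : Fin n → ℝ × ℝ => orient (P i) (P j) (P l)) := by
  unfold orient
  fun_prop

theorem measurable_count {n : ℕ} (s : (Fin n → ℝ × ℝ) → Fin n → Prop)
    (hs : ∀ l, MeasurableSet {P | s P l}) :
    Measurable (fun P : Fin n → ℝ × ℝ => {l | s P l}.ncard) := by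
  classical
  have h : (fun P : Fin n → ℝ × ℝ => {l | s P l}.ncard) =
      fun P => ∑ l, if s P l then 1 else 0 := by
    ext P
    have : {l | s P l} = ((univ.filter (fun l => s P l) : Finset (Fin n)) : Set (Fin n)) := by
      ext l; simp
    rw [this, Set.ncard_coe_finset, card_filter]
  rw [h]
  exact Finset.measurable_sum _ (fun l _ => Measurable.ite (hs l) measurable_const measurable_const)

theorem measurableSet_KEdge {n : ℕ} (k : ℕ) (i j : Fin n) :
    MeasurableSet {P : Fin n → ℝ × ℝ | KEdge P k i j} := by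
  unfold KEdge
  have h1 : MeasurableSet {P : Fin n → ℝ × ℝ | P i ≠ P j} :=
    (measurableSet_eq_fun (measurable_pi_apply i) (measurable_pi_apply j)).compl
  have h2 : MeasurableSet {P : Fin n → ℝ × ℝ | {l | 0 < orient (P i) (P j) (P l)}.ncard = k} :=
    (measurable_count (fun P l => 0 < orient (P i) (P j) (P l))
      (fun l => measurableSet_lt measurable_const (measurable_orient i j l)))
      (measurableSet_singleton k)
  have h3 : MeasurableSet
      {P : Fin n → ℝ × ℝ | {l | orient (P i) (P j) (P l) < 0}.ncard + k + 2 = n} :=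
    (measurable_count (fun P l => orient (P i) (P j) (P l) < 0)
      (fun l => measurableSet_lt (measurable_orient i j l) measurable_const))
      (MeasurableSet.of_discrete (s := {c : ℕ | c + k + 2 = n}))
  exact h1.inter (h2.inter h3)

theorem measurable_inner {n : ℕ} (k : ℕ) (j : Fin n) :
    Measurable (fun P : Fin n → ℝ × ℝ => ({i | i ≠ j ∧ KEdge P k i j}.ncard : ℝ≥0∞)) := by
  have h := measurable_count (fun (P : Fin n → ℝ × ℝ) i => i ≠ j ∧ KEdge P k i j) (by
    intro i
    by_cases hij : i = j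
    · simp [hij]
    · simp only [ne_eq, hij, not_false_eq_true, true_and]
      exact measurableSet_KEdge k i j)
  exact (measurable_of_countable (fun c : ℕ => (c : ℝ≥0∞))).comp h

theorem split {n : ℕ} (k : ℕ) (P : Fin n → ℝ × ℝ) :
    {q : Fin n × Fin n | KEdge P k q.1 q.2}.ncard = ∑ j, {i | i ≠ j ∧ KEdge P k i j}.ncard := by
  classical
  have h1 : {q : Fin n × Fin n | KEdge P k q.1 q.2} =
      ((univ.filter (fun q : Fin n × Fin n => KEdge P k q.1 q.2) : Finset _) : Set _) := by
    ext q; simp
  rw [h1, Set.ncard_coe_finset, card_filter, Fintype.sum_prod_type_right]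
  apply sum_congr rfl
  intro j _
  have h2 : {i | i ≠ j ∧ KEdge P k i j} =
      ((univ.filter (fun i => KEdge P k i j) : Finset _) : Set _) := by
    ext i
    simp only [Set.mem_ofPred_eq, coe_filter, mem_univ, true_and]
    constructor
    · exact fun h => h.2
    · intro h
      refine ⟨?_, h⟩
      rintro rfl
      exact h.1 rfl
  rw [h2, Set.ncard_coe_finset, card_filter]

theorem symm {n k : ℕ} (hn : n = 2 * k + 2) {P : Fin n → ℝ × ℝ} {i j : Fin n}
    (h : KEdge P k i j) : KEdge P k j i := by
  have ho : ∀ r, orient (P j) (P i) r = -orient (P i) (P j) r := by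
    intro r
    unfold orient
    ring
  obtain ⟨h1, h2, h3⟩ := h
  refine ⟨fun h => h1 h.symm, ?_, ?_⟩
  · simp only [ho, neg_pos]
    omega
  · simp only [ho, neg_lt_zero]
    omega

theorem collinear_null {n : ℕ} {ν : Fin n → Measure (ℝ × ℝ)} [∀ i, IsProbabilityMeasure (ν i)]
    {D : ℝ} (hD : ∀ i, ∀ θ s ε : ℝ, 0 ≤ ε →
      ν i {p | |p.1 * Real.cos θ + p.2 * Real.sin θ - s| ≤ ε} ≤ ENNReal.ofReal (2 * D * ε))
    {i j l : Fin n} (hij : i ≠ j) (hil : i ≠ l) (hjl : j ≠ l) :
    ∀ᵐ P ∂Measure.pi ν, orient (P i) (P j) (P l) ≠ 0 := by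
  have hline : ∀ m : Fin n, ∀ θ s : ℝ,
      ν m {p | p.1 * Real.cos θ + p.2 * Real.sin θ - s = 0} = 0 := by
    intro m θ s
    have h := hD m θ s 0 le_rfl
    simp only [mul_zero, ENNReal.ofReal_zero, abs_nonpos_iff] at h
    exact le_antisymm h bot_le
  have h1 : ∀ᵐ P ∂Measure.pi ν, P i ≠ P j := by
    rw [ae_iff]
    have hm : MeasurableSet {P : Fin n → ℝ × ℝ | P i = P j} :=
      measurableSet_eq_fun (measurable_pi_apply i) (measurable_pi_apply j)
    simp only [ne_eq, not_not]
    rw [← lintegral_indicator_one hm, pi_update ν j (measurable_one.indicator hm)]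
    have : ∀ P : Fin n → ℝ × ℝ, ∫⁻ y, {P : Fin n → ℝ × ℝ | P i = P j}.indicator
        (1 : (Fin n → ℝ × ℝ) → ℝ≥0∞) (Function.update P j y) ∂ν j = 0 := by
      intro P
      have hm' : MeasurableSet {y : ℝ × ℝ | P i = y} :=
        measurableSet_eq_fun measurable_const measurable_id
      apply le_antisymm _ bot_le
      calc _ = ∫⁻ y, {y : ℝ × ℝ | P i = y}.indicator (1 : ℝ × ℝ → ℝ≥0∞) y ∂ν j := by
            apply lintegral_congr
            intro y
            simp only [Set.indicator_apply, Set.mem_ofPred_eq, Function.update_self,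
              Function.update_of_ne hij, Pi.one_apply]
        _ = ν j {y : ℝ × ℝ | P i = y} := lintegral_indicator_one hm'
        _ ≤ ν j {p | p.1 * Real.cos 0 + p.2 * Real.sin 0 - (P i).1 = 0} := by
            apply measure_mono
            intro y hy
            rw [Set.mem_ofPred_eq] at hy ⊢
            rw [← hy]
            simp
        _ = 0 := hline _ _ _
    simp [this]
  have h2 : ∀ᵐ P ∂Measure.pi ν, ¬ (P i ≠ P j ∧ orient (P i) (P j) (P l) = 0) := by
    rw [ae_iff]
    simp only [not_not]
    have hm : MeasurableSet {P : Fin n → ℝ × ℝ | P i ≠ P j ∧ orient (P i) (P j) (P l) = 0} :=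
      (measurableSet_eq_fun (measurable_pi_apply i) (measurable_pi_apply j)).compl.inter
        (measurableSet_eq_fun (measurable_orient i j l) measurable_const)
    rw [← lintegral_indicator_one hm, pi_update ν l (measurable_one.indicator hm)]
    have : ∀ P : Fin n → ℝ × ℝ, ∫⁻ y,
        {P : Fin n → ℝ × ℝ | P i ≠ P j ∧ orient (P i) (P j) (P l) = 0}.indicator
        (1 : (Fin n → ℝ × ℝ) → ℝ≥0∞) (Function.update P l y) ∂ν l = 0 := by
      intro P
      by_cases hP : P i = P j
      · have : ∀ y, {P : Fin n → ℝ × ℝ | P i ≠ P j ∧ orient (P i) (P j) (P l) = 0}.indicator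
            (1 : (Fin n → ℝ × ℝ) → ℝ≥0∞) (Function.update P l y) = 0 := by
          intro y
          apply Set.indicator_of_notMem
          rw [Set.mem_ofPred_eq, Function.update_of_ne hil, Function.update_of_ne hjl]
          exact fun h => h.1 hP
        simp [this]
      · obtain ⟨r, hr, θ, _, hx, hy⟩ := exists_angle (x := -((P j).2 - (P i).2))
          (y := (P j).1 - (P i).1) (fun h => hP (Prod.ext (by linarith [h.2]) (by linarith [h.1])))
        have hm' : MeasurableSet {y : ℝ × ℝ | orient (P i) (P j) y = 0} := by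
          apply measurableSet_eq_fun _ measurable_const
          unfold orient
          fun_prop
        apply le_antisymm _ bot_le
        calc _ = ∫⁻ y, {y : ℝ × ℝ | orient (P i) (P j) y = 0}.indicator
              (1 : ℝ × ℝ → ℝ≥0∞) y ∂ν l := by
              apply lintegral_congr
              intro y
              simp only [Set.indicator_apply, Set.mem_ofPred_eq, Function.update_self,
                Function.update_of_ne hil, Function.update_of_ne hjl, Pi.one_apply, ne_eq, hP,
                not_false_eq_true, true_and]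
          _ = ν l {y : ℝ × ℝ | orient (P i) (P j) y = 0} := lintegral_indicator_one hm'
          _ ≤ ν l {p | p.1 * Real.cos θ + p.2 * Real.sin θ -
              ((P i).1 * Real.cos θ + (P i).2 * Real.sin θ) = 0} := by
              apply measure_mono
              intro y hy'
              rw [Set.mem_ofPred_eq] at hy' ⊢
              have h3 : orient (P i) (P j) y = r * (y.1 * Real.cos θ + y.2 * Real.sin θ -
                  ((P i).1 * Real.cos θ + (P i).2 * Real.sin θ)) := by
                have h4 : r * (y.1 * Real.cos θ + y.2 * Real.sin θ -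
                  ((P i).1 * Real.cos θ + (P i).2 * Real.sin θ)) =
                  (r * Real.cos θ) * (y.1 - (P i).1) + (r * Real.sin θ) * (y.2 - (P i).2) := by
                  ring
                rw [h4, ← hx, ← hy]
                unfold orient
                ring
              rw [h3] at hy'
              rcases mul_eq_zero.mp hy' with h | h
              · exact absurd h hr.ne'
              · exact h
          _ = 0 := hline _ _ _
    simp [this]
  filter_upwards [h1, h2] with P h3 h4 h5
  exact h4 ⟨h3, h5⟩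

/-- smoothed bound for the number of `k`-edges and halving lines -/
theorem result (n : ℕ) (ν : Fin n → Measure (ℝ × ℝ)) [∀ i, IsProbabilityMeasure (ν i)]
    (D R : ℝ) (hR : 0 ≤ R)
    (hD : ∀ i, ∀ θ s ε : ℝ, 0 ≤ ε →
      ν i {p | |p.1 * Real.cos θ + p.2 * Real.sin θ - s| ≤ ε} ≤ ENNReal.ofReal (2 * D * ε))
    (hν : ∀ i, ∀ᵐ p ∂ν i, p.1 ^ 2 + p.2 ^ 2 ≤ R ^ 2) :
    (∀ᵐ P ∂Measure.pi ν, ∀ i j l : Fin n, i ≠ j → i ≠ l → j ≠ l →
      orient (P i) (P j) (P l) ≠ 0) ∧
    (∀ k : ℕ, ∫⁻ P, ({q : Fin n × Fin n | KEdge P k q.1 q.2}.ncard : ℝ≥0∞) ∂Measure.pi ν ≤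
      ENNReal.ofReal (8 * Real.pi * D * R * n)) ∧
    (Even n → ∫⁻ P, ({q : Fin n × Fin n | q.1 < q.2 ∧ KEdge P (n / 2 - 1) q.1 q.2}.ncard : ℝ≥0∞)
      ∂Measure.pi ν ≤ ENNReal.ofReal (4 * Real.pi * D * R * n)) := by
  classical
  have hgp : ∀ᵐ P ∂Measure.pi ν, ∀ i j l : Fin n, i ≠ j → i ≠ l → j ≠ l →
      orient (P i) (P j) (P l) ≠ 0 := by
    rw [ae_all_iff]; intro i
    rw [ae_all_iff]; intro j
    rw [ae_all_iff]; intro l
    by_cases hij : i = j
    · exact Eventually.of_forall (fun P h => absurd hij h)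
    by_cases hil : i = l
    · exact Eventually.of_forall (fun P _ h => absurd hil h)
    by_cases hjl : j = l
    · exact Eventually.of_forall (fun P _ _ h => absurd hjl h)
    filter_upwards [collinear_null hD hij hil hjl] with P hP _ _ _
    exact hP
  have hmain : ∀ k : ℕ, ∫⁻ P, ({q : Fin n × Fin n | KEdge P k q.1 q.2}.ncard : ℝ≥0∞)
      ∂Measure.pi ν ≤ ENNReal.ofReal (8 * Real.pi * D * R * n) := by
    intro k
    by_cases hk : k + 2 ≤ n
    · have hae : ∀ᵐ P ∂Measure.pi ν, ∀ l, (P l).1 ^ 2 + (P l).2 ^ 2 ≤ R ^ 2 := by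
        rw [ae_all_iff]
        intro l
        exact (measurePreserving_eval ν l).quasiMeasurePreserving.ae (hν l)
      have hsum : ∀ P : Fin n → ℝ × ℝ, ({q : Fin n × Fin n | KEdge P k q.1 q.2}.ncard : ℝ≥0∞) =
          ∑ j, ({i | i ≠ j ∧ KEdge P k i j}.ncard : ℝ≥0∞) := by
        intro P
        rw [split]
        push_cast
        rfl
      simp only [hsum]
      rw [lintegral_finsetSum _ (fun j _ => measurable_inner k j)]
      calc ∑ j, ∫⁻ P, ({i | i ≠ j ∧ KEdge P k i j}.ncard : ℝ≥0∞) ∂Measure.pi ν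
          ≤ ∑ _j : Fin n, ENNReal.ofReal (8 * Real.pi * D * R) := by
            apply sum_le_sum
            intro j _
            rw [pi_update ν j (measurable_inner k j)]
            calc _ ≤ ∫⁻ _P, ENNReal.ofReal (8 * Real.pi * D * R) ∂Measure.pi ν := by
                  apply lintegral_mono_ae
                  filter_upwards [hae] with P hP
                  exact inner hk hR P hP j (ν j) (hD j) (hν j)
              _ = _ := by simp
        _ = ENNReal.ofReal (8 * Real.pi * D * R * n) := by
            rw [sum_const, card_univ, Fintype.card_fin, nsmul_eq_mul, ← ENNReal.ofReal_natCast,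
              ← ENNReal.ofReal_mul (by positivity)]
            congr 1
            ring
    · have : ∀ P : Fin n → ℝ × ℝ, {q : Fin n × Fin n | KEdge P k q.1 q.2} = ∅ := by
        intro P
        ext q
        simp only [Set.mem_ofPred_eq, Set.mem_empty_iff_false, iff_false]
        rintro ⟨_, _, h⟩
        omega
      simp [this]
  refine ⟨hgp, hmain, ?_⟩
  intro hn
  by_cases hn0 : n = 0
  · subst hn0
    have h0 : ∀ P : Fin 0 → ℝ × ℝ,
        {q : Fin 0 × Fin 0 | q.1 < q.2 ∧ KEdge P (0 / 2 - 1) q.1 q.2} = ∅ := by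
      intro P
      ext q
      exact q.1.elim0
    simp only [h0]
    simp
  obtain ⟨c, hc⟩ := hn
  have hnk : n = 2 * (n / 2 - 1) + 2 := by omega
  set k := n / 2 - 1 with hk
  have h2 : ∀ P : Fin n → ℝ × ℝ,
      2 * ({q : Fin n × Fin n | q.1 < q.2 ∧ KEdge P k q.1 q.2}.ncard : ℝ≥0∞) ≤
      ({q : Fin n × Fin n | KEdge P k q.1 q.2}.ncard : ℝ≥0∞) := by
    intro P
    set X := {q : Fin n × Fin n | q.1 < q.2 ∧ KEdge P k q.1 q.2} with hX
    have h3 : (Prod.swap '' X).ncard = X.ncard := Set.ncard_image_of_injective _ Prod.swap_injective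
    have h4 : Disjoint X (Prod.swap '' X) := by
      rw [Set.disjoint_left]
      rintro q hq ⟨q', hq', rfl⟩
      exact lt_asymm hq.1 hq'.1
    have h5 : X ∪ Prod.swap '' X ⊆ {q : Fin n × Fin n | KEdge P k q.1 q.2} := by
      rintro q (hq | ⟨q', hq', rfl⟩)
      · exact hq.2
      · exact symm hnk hq'.2
    have h6 := Set.ncard_le_ncard h5 (Set.toFinite _)
    rw [Set.ncard_union_eq h4 (Set.toFinite _) (Set.toFinite _), h3, ← two_mul] at h6
    exact_mod_cast h6
  have h7 : 2 * ∫⁻ P, ({q : Fin n × Fin n | q.1 < q.2 ∧ KEdge P k q.1 q.2}.ncard : ℝ≥0∞)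
      ∂Measure.pi ν ≤ 2 * ENNReal.ofReal (4 * Real.pi * D * R * n) := by
    calc _ = ∫⁻ P, 2 * ({q : Fin n × Fin n | q.1 < q.2 ∧ KEdge P k q.1 q.2}.ncard : ℝ≥0∞)
          ∂Measure.pi ν := (lintegral_const_mul' _ _ (by norm_num)).symm
      _ ≤ ∫⁻ P, ({q : Fin n × Fin n | KEdge P k q.1 q.2}.ncard : ℝ≥0∞) ∂Measure.pi ν :=
          lintegral_mono h2
      _ ≤ ENNReal.ofReal (8 * Real.pi * D * R * n) := hmain k
      _ = 2 * ENNReal.ofReal (4 * Real.pi * D * R * n) := by
          rw [← ENNReal.ofReal_ofNat 2, ← ENNReal.ofReal_mul (by norm_num)]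
          congr 1
          ring
  exact (ENNReal.mul_le_mul_iff_right (by norm_num) (by norm_num)).mp h7

end Pool.Agent.Results.MP_e17eac_co.SmoothedHalving
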